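import Mathlib

/-!
Helper file for `S12744`: the space of centered families of clopen subsets of the
Stone-Cech remainder of the natural numbers is not homogeneous.
-/

set_option autoImplicit false
set_option linter.unusedSectionVars false

open Set Topology

namespace Pool.Agent.H80.CenOmega


abbrev X := StoneCech ℕ
abbrev u : ℕ → X := stoneCechUnit

instance : ExtremallyDisconnected X := StoneCech.projective.extremallyDisconnected

/-- the continuous extension of an indicator -/
noncomputable def ind (A : Set ℕ) : X → Bool := by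
  classical
  exact stoneCechExtend (g := fun n => decide (n ∈ A)) continuous_of_discreteTopology

lemma ind_cont (A : Set ℕ) : Continuous (ind A) := by
  classical
  exact continuous_stoneCechExtend _

lemma ind_unit (A : Set ℕ) (n : ℕ) : ind A (u n) = true ↔ n ∈ A := by
  classical
  unfold ind
  rw [stoneCechExtend_stoneCechUnit]
  simp

lemma u_inj : Function.Injective u := by
  intro m n h
  have h1 := ind_unit {m} m
  have h2 := ind_unit {m} n
  rw [← h] at h2
  have := h2.1 (h1.2 rfl)
  exact this.symm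

lemma isOpen_singleton_unit (n : ℕ) : IsOpen ({u n} : Set X) := by
  have hO : IsOpen ((ind {n}) ⁻¹' {true}) := (isOpen_discrete _).preimage (ind_cont _)
  have : ((ind {n}) ⁻¹' {true}) = ({u n} : Set X) := by
    apply Subset.antisymm
    · intro x hx
      by_contra hne
      have hO2 : IsOpen (((ind {n}) ⁻¹' {true}) \ {u n}) := hO.sdiff isClosed_singleton
      obtain ⟨y, hy, m, rfl⟩ := denseRange_stoneCechUnit.inter_open_nonempty _ hO2 ⟨x, hx, hne⟩
      have : m ∈ ({n} : Set ℕ) := (ind_unit {n} m).1 hy.1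
      rw [mem_singleton_iff] at this
      subst this
      exact hy.2 rfl
    · rintro x rfl
      exact (ind_unit {n} n).2 rfl
  rw [← this]
  exact hO

lemma isOpen_image_unit (A : Set ℕ) : IsOpen (u '' A) := by
  have : u '' A = ⋃ n ∈ A, {u n} := by
    ext x; simp [eq_comm]
  rw [this]
  exact isOpen_biUnion fun n _ => isOpen_singleton_unit n

lemma exists_remainder_point (A : Set ℕ) (hA : A.Infinite) :
    ∃ x : X, x ∉ Set.range u ∧ x ∈ closure (u '' A) := by
  by_contra hcon
  push Not at hcon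
  have hsub : closure (u '' A) ⊆ Set.range u := by
    intro x hx
    by_contra hx'
    exact hcon x hx' hx
  have hK : IsCompact (closure (u '' A)) := isClosed_closure.isCompact
  obtain ⟨t, ht⟩ := hK.elim_finite_subcover (fun n => ({u n} : Set X)) (fun n => isOpen_singleton_unit n)
    (by intro x hx; obtain ⟨n, rfl⟩ := hsub hx; exact mem_iUnion.2 ⟨n, rfl⟩)
  apply hA
  have : u '' A ⊆ u '' (t : Set ℕ) := by
    intro x hx
    have := ht (subset_closure hx)
    simp only [mem_iUnion, mem_singleton_iff, exists_prop] at this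
    obtain ⟨n, hn, rfl⟩ := this
    exact ⟨n, hn, rfl⟩
  have hfin : (u '' A).Finite := (t.finite_toSet.image u).subset this
  exact Set.Finite.of_finite_image hfin u_inj.injOn

/-- a clopen set meeting the remainder contains two points of the remainder -/
lemma two_points (V : Set X) (hV : IsClopen V) (x₀ : X) (hx₀ : x₀ ∈ V) (hr : x₀ ∉ Set.range u) :
    ∃ x₁ ∈ V, x₁ ∉ Set.range u ∧ x₁ ≠ x₀ := by
  set A : Set ℕ := u ⁻¹' V with hA
  have hAinf : A.Infinite := by
    intro hfin
    have hO : IsOpen (V \ (u '' A)) := hV.isOpen.sdiff (hfin.image u).isClosed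
    obtain ⟨y, hy, m, rfl⟩ := denseRange_stoneCechUnit.inter_open_nonempty _ hO
      ⟨x₀, hx₀, fun h => hr (by obtain ⟨n, _, rfl⟩ := h; exact ⟨n, rfl⟩)⟩
    exact hy.2 ⟨m, hy.1, rfl⟩
  obtain ⟨e⟩ : Nonempty (ℕ ↪ A) := ⟨hAinf.natEmbedding⟩
  set A₁ : Set ℕ := range (fun n => (e (2 * n) : ℕ)) with hA₁
  set A₂ : Set ℕ := range (fun n => (e (2 * n + 1) : ℕ)) with hA₂
  have hinj1 : Function.Injective (fun n => (e (2 * n) : ℕ)) := by
    intro a b hab
    have := e.injective (Subtype.val_injective hab)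
    omega
  have hinj2 : Function.Injective (fun n => (e (2 * n + 1) : ℕ)) := by
    intro a b hab
    have := e.injective (Subtype.val_injective hab)
    omega
  have hinf1 : A₁.Infinite := infinite_range_of_injective hinj1
  have hinf2 : A₂.Infinite := infinite_range_of_injective hinj2
  have hdisj : Disjoint A₁ A₂ := by
    rw [Set.disjoint_left]
    rintro x ⟨a, rfl⟩ ⟨b, hb⟩
    have := e.injective (Subtype.val_injective hb)
    omega
  have hd : Disjoint (u '' A₁) (u '' A₂) := by
    rw [Set.disjoint_image_iff u_inj]; exact hdisj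
  have h1 : Disjoint (closure (u '' A₁)) (u '' A₂) := hd.closure_left (isOpen_image_unit _)
  have h2 : Disjoint (closure (u '' A₁)) (closure (u '' A₂)) :=
    h1.closure_right (ExtremallyDisconnected.open_closure _ (isOpen_image_unit _))
  obtain ⟨y₁, hy₁, hy₁'⟩ := exists_remainder_point A₁ hinf1
  obtain ⟨y₂, hy₂, hy₂'⟩ := exists_remainder_point A₂ hinf2
  have hsub1 : closure (u '' A₁) ⊆ V := by
    apply closure_minimal _ hV.isClosed
    rintro _ ⟨_, ⟨n, rfl⟩, rfl⟩
    exact (e (2 * n)).2
  have hsub2 : closure (u '' A₂) ⊆ V := by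
    apply closure_minimal _ hV.isClosed
    rintro _ ⟨_, ⟨n, rfl⟩, rfl⟩
    exact (e (2 * n + 1)).2
  by_cases hc : y₁ = x₀
  · refine ⟨y₂, hsub2 hy₂', hy₂, ?_⟩
    rintro rfl
    rw [hc] at hy₁'
    exact Set.disjoint_left.1 h2 hy₁' hy₂'
  · exact ⟨y₁, hsub1 hy₁', hy₁, hc⟩

/-- the remainder -/
def Rem : Set X := (Set.range u)ᶜ

lemma rem_closed : IsClosed Rem := by
  have : IsOpen (Set.range u) := by
    rw [← image_univ]; exact isOpen_image_unit _
  exact this.isClosed_compl

instance : CompactSpace Rem := isCompact_iff_compactSpace.1 rem_closed.isCompact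

lemma rem_nonempty : Rem.Nonempty := by
  obtain ⟨x, hx, _⟩ := exists_remainder_point univ infinite_univ
  exact ⟨x, hx⟩

open TopologicalSpace

lemma clopen_lift (D : Clopens Rem) : ∃ V : Set X, IsClopen V ∧ (Subtype.val ⁻¹' V : Set Rem) = D := by
  have hZ : IsClosed (Subtype.val '' (D : Set Rem) : Set X) :=
    rem_closed.isClosedEmbedding_subtypeVal.isClosedMap _ D.isClopen.isClosed
  have hZ' : IsClosed (Subtype.val '' ((D : Set Rem)ᶜ) : Set X) :=
    rem_closed.isClosedEmbedding_subtypeVal.isClosedMap _ D.isClopen.compl.isClosed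
  obtain ⟨C, hC, h1, h2⟩ := exists_clopen_of_closed_subset_open hZ hZ'.isOpen_compl (by
    rintro _ ⟨x, hx, rfl⟩ ⟨y, hy, hxy⟩
    have := Subtype.val_injective hxy
    subst this
    exact hy hx)
  refine ⟨C, hC, ?_⟩
  ext x
  constructor
  · intro hx
    by_contra hxD
    exact h2 hx ⟨x, hxD, rfl⟩
  · intro hx
    exact h1 ⟨x, hx, rfl⟩

lemma exists_split (A : Clopens Rem) (x₀ : Rem) (h : x₀ ∈ A) :
    ∃ A' : Clopens Rem, A' < A ∧ x₀ ∈ A' := by
  obtain ⟨V, hV, hVA⟩ := clopen_lift A
  have hx₀V : x₀.1 ∈ V := by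
    have : x₀ ∈ (Subtype.val ⁻¹' V : Set Rem) := by rw [hVA]; exact h
    exact this
  obtain ⟨x₁, hx₁V, hx₁, hne⟩ := two_points V hV x₀.1 hx₀V x₀.2
  obtain ⟨W, hW, h0, h1⟩ := exists_isClopen_of_totally_separated (α := X) hne.symm
  refine ⟨A ⊓ ⟨Subtype.val ⁻¹' W, hW.preimage continuous_subtype_val⟩, ?_, ⟨h, h0⟩⟩
  refine lt_of_le_of_ne inf_le_left ?_
  intro heq
  have hx₁A : (⟨x₁, hx₁⟩ : Rem) ∈ A := by
    have : (⟨x₁, hx₁⟩ : Rem) ∈ (Subtype.val ⁻¹' V : Set Rem) := hx₁V
    rw [hVA] at this
    exact this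
  rw [← heq] at hx₁A
  exact h1 hx₁A.2

lemma exists_sep (D : ℕ → Clopens Rem) (hD : Pairwise (Function.onFun Disjoint D)) :
    ∃ P : Clopens Rem, (∀ n, D (2 * n) ≤ P) ∧ (∀ n, Disjoint P (D (2 * n + 1))) := by
  choose V hV hVD using fun n => clopen_lift (D n)
  -- disjointify
  set V' : ℕ → Set X := fun n => V n \ ⋃ m ∈ Finset.range n, V m with hV'
  have hV'c : ∀ n, IsClopen (V' n) := fun n =>
    (hV n).diff (isClopen_biUnion_finset fun m _ => hV m)
  have hV'D : ∀ n, (Subtype.val ⁻¹' (V' n) : Set Rem) = D n := by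
    intro n
    ext x
    constructor
    · intro hx
      rw [← hVD]; exact hx.1
    · intro hx
      refine ⟨by have : x ∈ (Subtype.val ⁻¹' V n : Set Rem) := by { rw [hVD]; exact hx }
                 exact this, ?_⟩
      intro hx'
      simp only [mem_iUnion, exists_prop] at hx'
      obtain ⟨m, hm, hxm⟩ := hx'
      have hxm' : x ∈ (Subtype.val ⁻¹' V m : Set Rem) := hxm
      rw [hVD] at hxm'
      have hmn : m ≠ n := by
        have := Finset.mem_range.1 hm; omega
      have hdis := hD hmn
      have : x ∈ (D m ⊓ D n : Clopens Rem) := ⟨hxm', hx⟩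
      rw [hdis.eq_bot] at this
      exact this
  have hV'disj : ∀ m n, m ≠ n → Disjoint (V' m) (V' n) := by
    have key : ∀ m n, m < n → Disjoint (V' m) (V' n) := by
      intro m n hmn
      rw [Set.disjoint_left]
      intro x hx hx'
      apply hx'.2
      simp only [mem_iUnion, exists_prop]
      exact ⟨m, Finset.mem_range.2 hmn, hx.1⟩
    intro m n hmn
    rcases lt_or_gt_of_ne hmn with h | h
    · exact key m n h
    · exact (key n m h).symm
  set O : Set X := ⋃ n, V' (2 * n) with hO
  have hOo : IsOpen O := isOpen_iUnion fun n => (hV'c _).isOpen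
  have hcl : IsClopen (closure O) := ⟨isClosed_closure, ExtremallyDisconnected.open_closure _ hOo⟩
  refine ⟨⟨Subtype.val ⁻¹' (closure O), hcl.preimage continuous_subtype_val⟩, ?_, ?_⟩
  · intro n x hx
    have : x ∈ (Subtype.val ⁻¹' (V' (2 * n)) : Set Rem) := by rw [hV'D]; exact hx
    exact subset_closure (mem_iUnion.2 ⟨n, this⟩)
  · intro n
    rw [disjoint_iff]
    ext x
    constructor
    · intro hx
      exfalso
      have h1 : x.1 ∈ closure O := hx.1
      have h2 : x ∈ (Subtype.val ⁻¹' (V' (2 * n + 1)) : Set Rem) := by rw [hV'D]; exact hx.2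
      have hdis : Disjoint (closure O) (V' (2 * n + 1)) := by
        apply Disjoint.closure_left _ (hV'c _).isOpen
        rw [Set.disjoint_left]
        intro y hy hy'
        obtain ⟨k, hk⟩ := mem_iUnion.1 hy
        exact Set.disjoint_left.1 (hV'disj (2 * k) (2 * n + 1) (by omega)) hk hy'
      exact Set.disjoint_left.1 hdis h1 h2
    · intro hx
      exact absurd hx (by simp)




/-- centered families of a Boolean algebra -/
def Cen (B : Type*) [BooleanAlgebra B] : Set (B → Bool) :=
  {f | ∀ F : Finset B, (∀ U ∈ F, f U = true) → F.inf id ≠ ⊥}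

section
variable {B : Type*} [BooleanAlgebra B]

lemma cen_closed : IsClosed (Cen B) := by
  have : Cen B = ⋂ F : Finset B, ⋂ (_ : F.inf id = ⊥), {f : B → Bool | ∀ U ∈ F, f U = true}ᶜ := by
    ext f
    simp only [Cen, mem_ofPred_eq, mem_iInter, mem_compl_iff]
    constructor
    · intro h F hF hall
      exact h F hall hF
    · intro h F hall hF
      exact h F hF hall
  rw [this]
  refine isClosed_iInter fun F => isClosed_iInter fun _ => ?_
  apply IsOpen.isClosed_compl
  have : {f : B → Bool | ∀ U ∈ F, f U = true} = ⋂ U ∈ F, (fun f : B → Bool => f U) ⁻¹' {true} := by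
    ext f; simp
  rw [this]
  exact isOpen_biInter_finset fun U _ => (isOpen_discrete _).preimage (continuous_apply U)

instance : CompactSpace (Cen B) := isCompact_iff_compactSpace.1 cen_closed.isCompact

/-- continuous Bool-valued functions on a closed set of `B → Bool` have finite support -/
lemma exists_support (g : Cen B → Bool) (hg : Continuous g) :
    ∃ T : Finset B, ∀ η η' : Cen B, (∀ V ∈ T, η.1 V = η'.1 V) → g η = g η' := by
  classical
  -- local version
  have loc : ∀ η : Cen B, ∃ T : Finset B, ∀ η' : Cen B, (∀ V ∈ T, η'.1 V = η.1 V) → g η' = g η := by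
    intro η
    have hO : IsOpen (g ⁻¹' {g η}) := (isOpen_discrete _).preimage hg
    obtain ⟨O', hO', hOO⟩ := isOpen_induced_iff.1 hO
    have hη : η.1 ∈ O' := by
      have : η ∈ (Subtype.val ⁻¹' O' : Set (Cen B)) := by rw [hOO]; rfl
      exact this
    obtain ⟨I, v, hv, hsub⟩ := isOpen_pi_iff.1 hO' η.1 hη
    refine ⟨I, fun η' hη' => ?_⟩
    have : η'.1 ∈ O' := by
      apply hsub
      intro V hV
      rw [hη' V hV]
      exact (hv V hV).2
    have h2 : η' ∈ (Subtype.val ⁻¹' O' : Set (Cen B)) := this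
    rw [hOO] at h2
    exact h2
  choose T hT using loc
  have hcover : (univ : Set (Cen B)) ⊆ ⋃ η : Cen B, {η' : Cen B | ∀ V ∈ T η, η'.1 V = η.1 V} := by
    intro η _
    exact mem_iUnion.2 ⟨η, fun V _ => rfl⟩
  have hopen : ∀ η : Cen B, IsOpen {η' : Cen B | ∀ V ∈ T η, η'.1 V = η.1 V} := by
    intro η
    have : {η' : Cen B | ∀ V ∈ T η, η'.1 V = η.1 V}
        = ⋂ V ∈ T η, (fun η' : Cen B => η'.1 V) ⁻¹' {η.1 V} := by
      ext f; simp
    rw [this]
    exact isOpen_biInter_finset fun V _ =>
      (isOpen_discrete _).preimage ((continuous_apply V).comp continuous_subtype_val)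
  obtain ⟨t, ht⟩ := isCompact_univ.elim_finite_subcover _ hopen hcover
  refine ⟨t.biUnion T, fun η η' hagree => ?_⟩
  obtain ⟨ζ, hζ, hm⟩ : ∃ ζ ∈ t, ∀ V ∈ T ζ, η.1 V = ζ.1 V := by
    have := ht (mem_univ η)
    simpa using this
  have hm' : ∀ V ∈ T ζ, η'.1 V = ζ.1 V := by
    intro V hV
    rw [← hagree V (Finset.mem_biUnion.2 ⟨ζ, hζ, hV⟩)]
    exact hm V hV
  rw [hT ζ η hm, hT ζ η' hm']

/-- closing off under countably many finite-valued operations -/
lemma exists_closure (Φ : Finset B → Set B) (hΦ : ∀ F, (Φ F).Countable) :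
    ∃ S : Set B, S.Countable ∧ ∀ F : Finset B, (↑F : Set B) ⊆ S → Φ F ⊆ S := by
  classical
  let step : Set B → Set B := fun S => S ∪ ⋃ F ∈ {F : Finset B | (↑F : Set B) ⊆ S}, Φ F
  let s : ℕ → Set B := fun n => step^[n] ∅
  have hs_succ : ∀ n, s (n + 1) = step (s n) := fun n => Function.iterate_succ_apply' step n ∅
  have hcount : ∀ n, (s n).Countable := by
    intro n
    induction n with
    | zero => exact countable_empty
    | succ n ih =>
      rw [hs_succ]
      refine ih.union ?_
      refine Set.Countable.biUnion ?_ (fun F _ => hΦ F)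
      have h1 : {t : Set B | t.Finite ∧ t ⊆ s n}.Countable := Set.countable_ofPred_finite_subset ih
      have h2 : {F : Finset B | (↑F : Set B) ⊆ s n} = (fun F : Finset B => (↑F : Set B)) ⁻¹' {t : Set B | t.Finite ∧ t ⊆ s n} := by
        ext F; simp
      rw [h2]
      exact h1.preimage Finset.coe_injective
  have hmono : Monotone s := by
    apply monotone_nat_of_le_succ
    intro n
    rw [hs_succ]
    exact subset_union_left
  refine ⟨⋃ n, s n, countable_iUnion hcount, ?_⟩
  intro F hF
  have : ∃ n, (↑F : Set B) ⊆ s n := by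
    have hd : Directed (· ⊆ ·) s := hmono.directed_le
    exact hd.exists_mem_subset_of_finset_subset_biUnion hF
  obtain ⟨n, hn⟩ := this
  refine Subset.trans ?_ (subset_iUnion s (n + 1))
  rw [hs_succ]
  exact subset_union_of_subset_right (subset_biUnion_of_mem (u := Φ) hn) _


/-- The abstract non-homogeneity statement. -/
theorem core [Nontrivial B] (mem : B → Prop) (mem_top : mem ⊤)
    (mem_inf : ∀ a b, mem a → mem b → mem (a ⊓ b))
    (mem_or : ∀ a, mem a ∨ mem aᶜ)
    (split : ∀ a, mem a → ∃ a', a' < a ∧ mem a')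
    (sep : ∀ D : ℕ → B, Pairwise (Function.onFun Disjoint D) →
      ∃ P : B, (∀ n, D (2 * n) ≤ P) ∧ (∀ n, Disjoint P (D (2 * n + 1))))
    (h : Cen B ≃ₜ Cen B) (x y : Cen B) (hx : ∀ U, x.1 U = false) (hy : ∀ U, y.1 U = true ↔ mem U) :
    h x ≠ y := by
  classical
  intro hxy
  have hsupp : ∀ U : B, ∃ T : Finset B, ∀ η η' : Cen B, (∀ V ∈ T, η.1 V = η'.1 V) →
      (h η).1 U = (h η').1 U := fun U =>
    exists_support (fun η => (h η).1 U) ((continuous_apply U).comp (continuous_subtype_val.comp h.continuous))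
  have hsupp' : ∀ U : B, ∃ T : Finset B, ∀ η η' : Cen B, (∀ V ∈ T, η.1 V = η'.1 V) →
      (h.symm η).1 U = (h.symm η').1 U := fun U =>
    exists_support (fun η => (h.symm η).1 U)
      ((continuous_apply U).comp (continuous_subtype_val.comp h.symm.continuous))
  choose T hT using hsupp
  choose T' hT' using hsupp'
  -- choice of splitting
  have hsplit : ∀ a : B, ∃ a' : B, mem a → (a' < a ∧ mem a') := by
    intro a
    by_cases ha : mem a
    · obtain ⟨a', h1, h2⟩ := split a ha
      exact ⟨a', fun _ => ⟨h1, h2⟩⟩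
    · exact ⟨⊥, fun h => absurd h ha⟩
  choose sp hsp using hsplit
  -- close off
  obtain ⟨S, hScount, hS⟩ := exists_closure
    (Φ := fun F : Finset B => ({⊤, F.inf id, F.sup id} : Set B) ∪ (↑(F.biUnion T) : Set B)
      ∪ (↑(F.biUnion T') : Set B) ∪ (↑(F.image sp) : Set B) ∪ (↑(F.image compl) : Set B))
    (fun F => by
      refine Set.Countable.union (Set.Countable.union (Set.Countable.union (Set.Countable.union ?_ ?_) ?_) ?_) ?_
      · exact (Set.toFinite _).countable
      all_goals exact (Finset.finite_toSet _).countable)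
  have hStop : (⊤ : B) ∈ S := by
    have := hS ∅ (by simp)
    apply this
    simp
  have hSinf : ∀ a b, a ∈ S → b ∈ S → a ⊓ b ∈ S := by
    intro a b ha hb
    have := hS {a, b} (by intro z hz; simp at hz; rcases hz with rfl | rfl <;> assumption)
    apply this
    simp
  have hST : ∀ a ∈ S, ∀ b ∈ T a, b ∈ S := by
    intro a ha b hb
    have := hS {a} (by simpa using ha)
    apply this
    simp [hb]
  have hST' : ∀ a ∈ S, ∀ b ∈ T' a, b ∈ S := by
    intro a ha b hb
    have := hS {a} (by simpa using ha)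
    apply this
    simp [hb]
  have hSsp : ∀ a ∈ S, sp a ∈ S := by
    intro a ha
    have := hS {a} (by simpa using ha)
    apply this
    simp
  have hSc : ∀ a ∈ S, aᶜ ∈ S := by
    intro a ha
    have := hS {a} (by simpa using ha)
    apply this
    simp
  -- enumerate members of the ultrafilter in S
  have hne : ({a | a ∈ S ∧ mem a} : Set B).Nonempty := ⟨⊤, hStop, mem_top⟩
  have hcnt : ({a | a ∈ S ∧ mem a} : Set B).Countable := hScount.mono (fun a ha => ha.1)
  obtain ⟨e, he⟩ := hcnt.exists_eq_range hne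
  have he1 : ∀ n, e n ∈ S ∧ mem (e n) := by
    intro n
    have : e n ∈ ({a | a ∈ S ∧ mem a} : Set B) := by rw [he]; exact mem_range_self n
    exact this
  -- strictly decreasing sequence
  let A : ℕ → B := fun n => Nat.rec (motive := fun _ => B) ⊤ (fun k a => sp (a ⊓ e k)) n
  have hA0 : A 0 = ⊤ := rfl
  have hAs : ∀ n, A (n + 1) = sp (A n ⊓ e n) := fun n => rfl
  have hAmem : ∀ n, A n ∈ S ∧ mem (A n) := by
    intro n
    induction n with
    | zero => exact ⟨hStop, mem_top⟩
    | succ n ih =>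
      rw [hAs]
      have h1 : mem (A n ⊓ e n) := mem_inf _ _ ih.2 (he1 n).2
      exact ⟨hSsp _ (hSinf _ _ ih.1 (he1 n).1), (hsp _ h1).2⟩
  have hAlt : ∀ n, A (n + 1) < A n ⊓ e n := by
    intro n
    rw [hAs]
    exact (hsp _ (mem_inf _ _ (hAmem n).2 (he1 n).2)).1
  have hAanti : Antitone A := antitone_nat_of_succ_le fun n => (hAlt n).le.trans inf_le_left
  let D : ℕ → B := fun n => A n ⊓ (A (n + 1))ᶜ
  have hDne : ∀ n, D n ≠ ⊥ := by
    intro n hn
    have hle : A n ≤ A (n + 1) := by
      have : Disjoint (A n) (A (n + 1))ᶜ := disjoint_iff.2 hn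
      exact (le_compl_iff_disjoint_right.2 this).trans (compl_compl _).le
    have := (hAlt n).trans_le inf_le_left
    exact absurd hle this.not_ge
  have hDS : ∀ n, D n ∈ S := fun n => hSinf _ _ (hAmem n).1 (hSc _ (hAmem (n + 1)).1)
  have hDdisj : ∀ m n, m < n → Disjoint (D m) (D n) := by
    intro m n hmn
    have h1 : D n ≤ A (m + 1) := inf_le_left.trans (hAanti hmn)
    have h2 : D m ≤ (A (m + 1))ᶜ := inf_le_right
    exact (disjoint_compl_left (a := A (m + 1))).mono h2 h1
  have hDpair : Pairwise (Function.onFun Disjoint D) := by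
    intro m n hmn
    rcases lt_or_gt_of_ne hmn with h | h
    · exact hDdisj m n h
    · exact (hDdisj n m h).symm
  have hDinj : Function.Injective D := by
    intro m n hmn
    by_contra hne'
    have := hDpair hne'
    simp only [Function.onFun] at this
    rw [hmn] at this
    exact hDne n (disjoint_self.1 this)
  obtain ⟨P₀, hP1, hP2⟩ := sep D hDpair
  -- choose P
  obtain ⟨P, hPmem, hPinf⟩ : ∃ P : B, mem P ∧ ∀ N, ∃ n, N ≤ n ∧ Disjoint P (D n) := by
    rcases mem_or P₀ with hm | hm
    · exact ⟨P₀, hm, fun N => ⟨2 * N + 1, by omega, hP2 N⟩⟩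
    · exact ⟨P₀ᶜ, hm, fun N => ⟨2 * N, by omega, (disjoint_compl_left (a := P₀)).mono_right (hP1 N)⟩⟩
  -- finite set F₀
  let Q : Finset B := (T P).filter (· ∈ S)
  let F₀ : Finset B := Q.biUnion T'
  have hF₀S : ∀ a ∈ F₀, a ∈ S := by
    intro a ha
    obtain ⟨q, hq, ha⟩ := Finset.mem_biUnion.1 ha
    exact hST' q (Finset.mem_filter.1 hq).2 a ha
  -- bound for n
  have hlarge : ∃ N, ∀ n, N ≤ n → (∀ a ∈ F₀, mem a → A n ≤ a) ∧ D n ∉ F₀ := by
    have h1 : ∀ a ∈ F₀, ∃ N, ∀ n, N ≤ n → mem a → A n ≤ a := by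
      intro a ha
      by_cases hm : mem a
      · have : a ∈ range e := by rw [← he]; exact ⟨hF₀S a ha, hm⟩
        obtain ⟨k, hk⟩ := this
        refine ⟨k + 1, fun n hn _ => ?_⟩
        have := hAanti hn
        refine this.trans ((hAlt k).le.trans ?_)
        rw [hk]; exact inf_le_right
      · exact ⟨0, fun n _ hm' => absurd hm' hm⟩
    choose! N₁ hN₁ using h1
    have h2 : ({n | D n ∈ F₀} : Set ℕ).Finite := F₀.finite_toSet.preimage hDinj.injOn
    obtain ⟨M, hM⟩ := h2.bddAbove
    refine ⟨max (F₀.sup N₁) (M + 1), fun n hn => ⟨fun a ha hm => hN₁ a ha n ?_ hm, fun hD => ?_⟩⟩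
    · exact (Finset.le_sup (f := N₁) ha).trans ((le_max_left _ _).trans hn)
    · have := hM hD
      have : M + 1 ≤ n := (le_max_right _ _).trans hn
      omega
  obtain ⟨N, hN⟩ := hlarge
  obtain ⟨n, hnN, hnP⟩ := hPinf N
  obtain ⟨hn1, hn2⟩ := hN n hnN
  -- the family ξ
  let ξf : B → Bool := fun U => decide ((U ∈ F₀ ∧ mem U) ∨ U = D n)
  have hξC : ξf ∈ Cen B := by
    intro F hF
    have hle : D n ≤ F.inf id := by
      apply Finset.le_inf
      intro U hU
      have := hF U hU
      simp only [ξf, decide_eq_true_eq] at this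
      rcases this with ⟨h1, h2⟩ | h1
      · exact inf_le_left.trans (hn1 U h1 h2)
      · rw [h1]; exact le_rfl
    intro hbot
    rw [hbot] at hle
    exact hDne n (le_bot_iff.1 hle)
  let ξ : Cen B := ⟨ξf, hξC⟩
  let w : Cen B := h.symm ξ
  have hsym : h.symm y = x := by rw [← hxy]; simp
  have hwQ : ∀ V ∈ Q, w.1 V = false := by
    intro V hV
    rw [← hx V, ← hsym]
    apply hT' V
    intro U hU
    have hUF : U ∈ F₀ := Finset.mem_biUnion.2 ⟨V, hV, hU⟩
    change ξf U = y.1 U
    by_cases hm : mem U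
    · rw [(hy U).2 hm]
      simp [ξf, hUF, hm]
    · have h1 : y.1 U = false := by
        rw [Bool.eq_false_iff]; intro h2; exact hm ((hy U).1 h2)
      rw [h1]
      simp only [ξf, decide_eq_false_iff_not, not_or, not_and]
      exact ⟨fun _ => hm, fun h2 => hn2 (h2 ▸ hUF)⟩
  -- restriction of w to S
  let w₀f : B → Bool := fun U => if U ∈ S then w.1 U else false
  have hw₀C : w₀f ∈ Cen B := by
    intro F hF
    apply w.2
    intro U hU
    have := hF U hU
    simp only [w₀f] at this
    split_ifs at this with hc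
    exact this
  let w₀ : Cen B := ⟨w₀f, hw₀C⟩
  have hw₀S : ∀ U ∈ S, w₀.1 U = w.1 U := by
    intro U hU
    simp [w₀, w₀f, hU]
  have hhw : ∀ U ∈ S, (h w₀).1 U = ξ.1 U := by
    intro U hU
    have h1 : (h w₀).1 U = (h w).1 U := hT U w₀ w fun V hV => hw₀S V (hST U hU V hV)
    rw [h1]
    simp [w]
  have hPw : (h w₀).1 P = true := by
    have h1 : (h w₀).1 P = (h x).1 P := by
      apply hT P
      intro V hV
      rw [hx V]
      by_cases hVS : V ∈ S
      · rw [hw₀S V hVS]
        exact hwQ V (Finset.mem_filter.2 ⟨hV, hVS⟩)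
      · simp [w₀, w₀f, hVS]
    rw [h1, hxy]
    exact (hy P).2 hPmem
  have hDw : (h w₀).1 (D n) = true := by
    rw [hhw _ (hDS n)]
    simp [ξ, ξf]
  have := (h w₀).2 {P, D n} (by
    intro U hU
    simp only [Finset.mem_insert, Finset.mem_singleton] at hU
    rcases hU with rfl | rfl
    · exact hPw
    · exact hDw)
  apply this
  simp only [Finset.inf_insert, Finset.inf_singleton, id]
  exact disjoint_iff.1 hnP

end

end Pool.Agent.H80.CenOmega
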